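import Pool.Agent.Helper82.BM.Main

set_option autoImplicit false

namespace Pool.Agent.Results.MP_0ff9d6_lc.NoBorelHomomorphism

open Pool.Agent.Helper31.CloneProj MeasureTheory

/-- From a homomorphism of the closed oligomorphic clone `C` to the projection clone on `Bool` to
the index-valued maps used in the construction. -/
theorem isHom_of_bool
    (ξ : ∀ n : ℕ, C n → {p : (Fin n → Bool) → Bool // ∃ i, p = fun y => y i})
    (h1 : ∀ (n : ℕ) (i : Fin n) (f : C n), f.1 = (fun x => x i) → (ξ n f).1 = fun y => y i)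
    (h2 : ∀ (n m : ℕ) (f : C n) (g : Fin n → C m) (h : C m),
      h.1 = (fun x => f.1 (fun i => (g i).1 x)) →
      (ξ m h).1 = fun y => (ξ n f).1 (fun i => (ξ m (g i)).1 y)) :
    ∃ η : ∀ n : ℕ, ((Fin n → ℕ) → ℕ) → ℕ, IsHom η ∧
      ∀ (n : ℕ) (f : C n) (i : Fin n), (ξ n f).1 = (fun y => y i) ↔ η n f.1 = (i : ℕ) := by
  classical
  have hinj : ∀ (n : ℕ) (i j : Fin n), (fun y : Fin n → Bool => y i) = (fun y => y j) → i = j := by
    intro n i j h
    have := congrFun h (fun a => decide (a = i))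
    simp only [decide_true] at this
    exact (of_decide_eq_true this.symm).symm
  -- the index of the projection
  let idx : ∀ (n : ℕ) (f : (Fin n → ℕ) → ℕ), f ∈ C n → Fin n := fun n f hf =>
    Classical.choose (ξ n ⟨f, hf⟩).2
  have hidx : ∀ (n : ℕ) (f : (Fin n → ℕ) → ℕ) (hf : f ∈ C n),
      (ξ n ⟨f, hf⟩).1 = fun y => y (idx n f hf) := fun n f hf =>
    Classical.choose_spec (ξ n ⟨f, hf⟩).2
  let η : ∀ n : ℕ, ((Fin n → ℕ) → ℕ) → ℕ := fun n f =>
    if hf : f ∈ C n then (idx n f hf : ℕ) else 0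
  have hη : ∀ (n : ℕ) (f : (Fin n → ℕ) → ℕ) (hf : f ∈ C n), η n f = (idx n f hf : ℕ) :=
    fun n f hf => dif_pos hf
  have hiff : ∀ (n : ℕ) (f : C n) (i : Fin n),
      (ξ n f).1 = (fun y => y i) ↔ η n f.1 = (i : ℕ) := by
    intro n f i
    rw [hη n f.1 f.2]
    constructor
    · intro h
      have h3 := hidx n f.1 f.2
      rw [h3] at h
      rw [hinj n _ _ h]
    · intro h
      have h3 := hidx n f.1 f.2
      rw [Fin.ext h] at h3
      exact h3
  refine ⟨η, ⟨?_, ?_, ?_⟩, hiff⟩
  · intro n f hf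
    rw [hη n f hf]
    exact (idx n f hf).2
  · intro n i
    exact (hiff n ⟨_, C_proj n i⟩ i).1 (h1 n i ⟨_, C_proj n i⟩ rfl)
  · intro n m f g hf hg i hi
    have h3 := h2 n m ⟨f, hf⟩ (fun j => ⟨g j, hg j⟩) ⟨_, C_comp n m f g hf hg⟩ rfl
    have h4 := (hiff n ⟨f, hf⟩ i).2 hi
    rw [h4] at h3
    have h5 := hidx m (g i) (hg i)
    rw [hη m (g i) (hg i)]
    refine (hiff m ⟨_, C_comp n m f g hf hg⟩ (idx m (g i) (hg i))).1 ?_
    rw [h3]
    exact h5

/-- There is a closed oligomorphic function clone `C` on the natural numbers, without nullary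
operations, which has a clone homomorphism to the projection clone on a two-element set, while the
binary part of every such homomorphism is discontinuous, and not even Borel measurable: the
preimage of the first binary projection is not a Borel subset of the binary part of `C`. -/
theorem result :
    ∃ C : ∀ n : ℕ, Set ((Fin n → ℕ) → ℕ),
      -- `C` is a function clone on `ℕ`, with no nullary operations
      (∀ (n : ℕ) (i : Fin n), (fun x : Fin n → ℕ => x i) ∈ C n) ∧
      (∀ (n m : ℕ) (f : C n) (g : Fin n → C m),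
        (fun x : Fin m → ℕ => f.1 (fun i => (g i).1 x)) ∈ C m) ∧
      C 0 = ∅ ∧
      -- `C` is closed in the topology of pointwise convergence
      (∀ n : ℕ, IsClosed (C n)) ∧
      -- `C` is oligomorphic: the group of its invertible unary operations is oligomorphic
      (∃ G : Subgroup (Equiv.Perm ℕ),
        (∀ σ : Equiv.Perm ℕ, σ ∈ G ↔
          (fun x : Fin 1 → ℕ => σ (x 0)) ∈ C 1 ∧ (fun x : Fin 1 → ℕ => σ⁻¹ (x 0)) ∈ C 1) ∧
        ∀ k : ℕ, Finite (MulAction.orbitRel.Quotient G (Fin k → ℕ))) ∧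
      -- there is a clone homomorphism to the projection clone
      (∃ ξ : ∀ n : ℕ, C n → {p : (Fin n → Bool) → Bool // ∃ i, p = fun y => y i},
        (∀ (n : ℕ) (i : Fin n) (f : C n), f.1 = (fun x => x i) → (ξ n f).1 = fun y => y i) ∧
        ∀ (n m : ℕ) (f : C n) (g : Fin n → C m) (h : C m),
          h.1 = (fun x => f.1 (fun i => (g i).1 x)) →
          (ξ m h).1 = fun y => (ξ n f).1 (fun i => (ξ m (g i)).1 y)) ∧
      -- the binary part of each of them is discontinuous and not even Borel measurable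
      ∀ ξ : ∀ n : ℕ, C n → {p : (Fin n → Bool) → Bool // ∃ i, p = fun y => y i},
        (∀ (n : ℕ) (i : Fin n) (f : C n), f.1 = (fun x => x i) → (ξ n f).1 = fun y => y i) →
        (∀ (n m : ℕ) (f : C n) (g : Fin n → C m) (h : C m),
          h.1 = (fun x => f.1 (fun i => (g i).1 x)) →
          (ξ m h).1 = fun y => (ξ n f).1 (fun i => (ξ m (g i)).1 y)) →
        ¬ Continuous (ξ 2) ∧
        ¬ MeasurableSet[borel (C 2)] {f : C 2 | (ξ 2 f).1 = fun y => y 0} := by
  classical
  refine ⟨C, C_proj, ?_, ?_, C_closed, ?_, ?_, ?_⟩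
  · intro n m f g
    exact C_comp n m f.1 (fun i => (g i).1) f.2 (fun i => (g i).2)
  · rw [Set.eq_empty_iff_forall_notMem]
    rintro f ⟨c, γ, s, h⟩
    exact (s 0 (fun _ => 0)).elim0
  · refine ⟨{ carrier := {σ | (fun x : Fin 1 → ℕ => σ (x 0)) ∈ C 1 ∧
        (fun x : Fin 1 → ℕ => σ⁻¹ (x 0)) ∈ C 1}
              mul_mem' := ?_
              one_mem' := ?_
              inv_mem' := ?_ }, fun σ => Iff.rfl, ?_⟩
    · rintro σ τ ⟨a1, a2⟩ ⟨b1, b2⟩
      refine ⟨?_, ?_⟩
      · exact C_comp 1 1 _ (fun _ => _) a1 (fun _ => b1)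
      · have := C_comp 1 1 _ (fun _ => _) b2 (fun _ => a2)
        simpa [mul_inv_rev] using this
    · refine ⟨C_proj 1 0, ?_⟩
      simpa using C_proj 1 0
    · rintro σ ⟨a1, a2⟩
      refine ⟨a2, ?_⟩
      simpa using a1
    · intro k
      obtain ⟨S, hS⟩ := C_oligo k
      refine Finite.of_surjective (fun s : S => (Quotient.mk'' s.1 :
        MulAction.orbitRel.Quotient _ (Fin k → ℕ))) ?_
      intro q
      induction q using Quotient.inductionOn' with
      | h x =>
        obtain ⟨s, hs, σ, τ, h1, h2, h3, h4, h5⟩ := hS x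
        refine ⟨⟨s, hs⟩, ?_⟩
        refine Quotient.sound' ?_
        rw [MulAction.orbitRel_apply]
        refine ⟨⟨(⟨σ, τ, h3, h4⟩ : Equiv.Perm ℕ)⁻¹, ⟨h2, ?_⟩⟩, ?_⟩
        · simpa using h1
        · funext i
          have h6 : x i = σ (s i) := by rw [← h5]; rfl
          show τ (x i) = s i
          rw [h6]
          exact h3 (s i)
  · have hlt := xi_isHom.lt
    refine ⟨fun n f => ⟨fun y => y ⟨xi n f.1, hlt n f.1 f.2⟩, _, rfl⟩, ?_, ?_⟩
    · intro n i f hf
      have h1 : xi n f.1 = i := by rw [hf]; exact xi_isHom.proj n i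
      have h2 : (⟨xi n f.1, hlt n f.1 f.2⟩ : Fin n) = i := Fin.ext h1
      simp only [h2]
    · intro n m f g h hh
      have h1 := xi_isHom.comp n m f.1 (fun i => (g i).1) f.2 (fun i => (g i).2)
        ⟨xi n f.1, hlt n f.1 f.2⟩ rfl
      rw [← hh] at h1
      have h2 : (⟨xi m h.1, hlt m h.1 h.2⟩ : Fin m) =
          ⟨xi m (g ⟨xi n f.1, hlt n f.1 f.2⟩).1, hlt m _ (g ⟨xi n f.1, hlt n f.1 f.2⟩).2⟩ :=
        Fin.ext h1
      simp only [h2]
  · intro ξ h1 h2
    obtain ⟨η, hη, hiff⟩ := isHom_of_bool ξ h1 h2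
    have h3 : ¬ MeasurableSet[borel (C 2)] {f : C 2 | (ξ 2 f).1 = fun y => y 0} := by
      intro h
      refine Helper82.BM.not_measurable hη ?_
      have h4 : {f : C 2 | η 2 f.1 = 0} = {f : C 2 | (ξ 2 f).1 = fun y => y 0} := by
        ext f
        exact (hiff 2 f 0).symm
      rw [h4]
      exact h
    refine ⟨fun hcont => h3 ?_, h3⟩
    let _ : MeasurableSpace (C 2) := borel (C 2)
    have _ : BorelSpace (C 2) := ⟨rfl⟩
    have h5 : IsClosed {f : C 2 | (ξ 2 f).1 = fun y => y 0} :=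
      isClosed_eq (continuous_subtype_val.comp hcont) continuous_const
    exact h5.measurableSet

end Pool.Agent.Results.MP_0ff9d6_lc.NoBorelHomomorphism
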